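import Mathlib

/-!
# A kernel-friendly check that all unit-step progressions meet a periodic family of discs

Lengths are measured in units `1 / S`.  The centres of the discs of radius `h` are
`(ctr PX k + m A, ctr PY k + n C)`, `k < N`, `m n : ℤ`.  Directions in the first quadrant are
`(T ^ 2 - τ ^ 2, 2 T τ) / (T ^ 2 + τ ^ 2)` with `0 ≤ τ ≤ T`.
-/

namespace Pool.Agent.H704.UD

/-- The digit number `k` of `P` in base `2 ^ 24`. -/
def ctr (P k : Nat) : Nat := Nat.mod (Nat.div P (Nat.pow 16777216 k)) 16777216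

/-- Upper bound for the distance of a number in `[lo, hi]` to `p` modulo `A`. -/
def devAux (h r w : Nat) : Nat :=
  cond (Nat.ble (Nat.sub h r) (Nat.sub (Nat.add r w) h)) (Nat.sub (Nat.add r w) h) (Nat.sub h r)

def dev (A h p lo hi : Nat) : Nat :=
  devAux h (Nat.mod (Nat.add (Nat.add lo (Nat.sub A p)) h) A) (Nat.sub hi lo)

def leafAux (h mx my : Nat) : Bool := Nat.ble (Nat.succ (Nat.add (Nat.mul mx mx) (Nat.mul my my))) (Nat.mul h h)

def leafOk (A C h PX PY x0 x1 y0 y1 c0 c1 s0 s1 i k : Nat) : Bool :=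
  leafAux h (dev A h (ctr PX k) (Nat.add x0 (Nat.mul i c0)) (Nat.add x1 (Nat.mul i c1)))
    (dev C h (ctr PY k) (Nat.add y0 (Nat.mul i s0)) (Nat.add y1 (Nat.mul i s1)))

/-- Lower bound for `S` times the first coordinate of the direction. -/
def cl (S T t : Nat) : Nat :=
  Nat.div (Nat.mul S (Nat.sub (Nat.mul T T) (Nat.mul t t))) (Nat.add (Nat.mul T T) (Nat.mul t t))

/-- Lower bound for `S` times the second coordinate of the direction. -/
def sl (S T t : Nat) : Nat :=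
  Nat.div (Nat.mul S (Nat.mul 2 (Nat.mul T t))) (Nat.add (Nat.mul T T) (Nat.mul t t))

def half (a b : Nat) : Nat := Nat.div (Nat.add a b) 2

/-- The check: walk through the tree given by the digits of `z` in base `2048`. -/
def go (S T A C h PX PY N KN : Nat) (f : Nat) :
    Nat → Nat → Nat → Nat → Nat → Nat → Nat → Nat → Nat → Nat → Nat → Nat :=
  Nat.rec (motive := fun _ => Nat → Nat → Nat → Nat → Nat → Nat → Nat → Nat → Nat → Nat → Nat → Nat)
    (fun _ _ _ _ _ _ _ _ _ _ _ => 0)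
    (fun _ ih x0 x1 y0 y1 t0 t1 c0 c1 s0 s1 z =>
      (fun d z' =>
        cond (Nat.ble (Nat.succ d) KN)
          (cond (leafOk A C h PX PY x0 x1 y0 y1 c0 c1 s0 s1 (Nat.div d N) (Nat.mod d N)) z' 0)
          (cond (Nat.beq d KN)
            ((fun r => cond (Nat.beq r 0) 0 (ih (half x0 x1) x1 y0 y1 t0 t1 c0 c1 s0 s1 r))
              (ih x0 (half x0 x1) y0 y1 t0 t1 c0 c1 s0 s1 z'))
            (cond (Nat.beq d (Nat.succ KN))
              ((fun r => cond (Nat.beq r 0) 0 (ih x0 x1 (half y0 y1) y1 t0 t1 c0 c1 s0 s1 r))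
                (ih x0 x1 y0 (half y0 y1) t0 t1 c0 c1 s0 s1 z'))
              ((fun r => cond (Nat.beq r 0) 0
                  (ih x0 x1 y0 y1 (half t0 t1) t1 c0 (Nat.succ (cl S T (half t0 t1)))
                    (sl S T (half t0 t1)) s1 r))
                (ih x0 x1 y0 y1 t0 (half t0 t1) (cl S T (half t0 t1)) c1
                  s0 (Nat.succ (sl S T (half t0 t1))) z'))))) (Nat.mod z 2048) (Nat.div z 2048)) f

/-! ### Soundness -/

/-- Membership in the red set, in units `1 / S`. -/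
def Red (A C h PX PY N : ℕ) (x y : ℝ) : Prop :=
  ∃ k : ℕ, k < N ∧ ∃ m n : ℤ,
    (x - (ctr PX k : ℝ) - m * A) ^ 2 + (y - (ctr PY k : ℝ) - n * C) ^ 2 < (h : ℝ) ^ 2

theorem devAux_eq (h r w : ℕ) : devAux h r w = max (h - r) (r + w - h) := by
  unfold devAux
  show (bif Nat.ble (h - r) (r + w - h) then (r + w - h) else (h - r)) = _
  rcases hb : Nat.ble (h - r) (r + w - h) with _ | _
  · have : ¬ (h - r ≤ r + w - h) := by
      intro h1
      rw [Nat.ble_eq_true_of_le h1] at hb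
      exact absurd hb (by simp)
    simp only [cond_false]
    omega
  · have : (h - r ≤ r + w - h) := Nat.le_of_ble_eq_true hb
    simp only [cond_true]
    omega

theorem dev_spec (A h p lo hi : ℕ) (hA : 0 < A) (hp : p ≤ A) (hlo : lo ≤ hi) (X : ℝ)
    (h1 : (lo : ℝ) ≤ X) (h2 : X ≤ hi) :
    ∃ m : ℤ, |X - p - m * A| ≤ (dev A h p lo hi : ℝ) := by
  have e : dev A h p lo hi = max (h - ((lo + (A - p) + h) % A))
      ((lo + (A - p) + h) % A + (hi - lo) - h) := devAux_eq _ _ _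
  set r : ℕ := (lo + (A - p) + h) % A with hr
  set q : ℕ := (lo + (A - p) + h) / A with hq
  have hdiv : A * q + r = lo + (A - p) + h := Nat.div_add_mod _ _
  have hdivR : (A : ℝ) * q + r = lo + (A - p) + h := by
    have := congrArg (fun n : ℕ => (n : ℝ)) hdiv
    push_cast [Nat.cast_sub hp] at this
    exact this
  refine ⟨(q : ℤ) - 1, ?_⟩
  rw [e]
  have hu : ((h : ℝ) - r) ≤ ((h - r : ℕ) : ℝ) := by
    have : (h : ℤ) - r ≤ ((h - r : ℕ) : ℤ) := by omega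
    exact_mod_cast this
  have hv : ((r : ℝ) + (hi - lo) - h) ≤ ((r + (hi - lo) - h : ℕ) : ℝ) := by
    have : (r : ℤ) + (hi - lo) - h ≤ ((r + (hi - lo) - h : ℕ) : ℤ) := by omega
    exact_mod_cast this
  push_cast
  rw [abs_le]
  constructor
  · have : ((h - r : ℕ) : ℝ) ≤ max ((h - r : ℕ) : ℝ) ((r + (hi - lo) - h : ℕ) : ℝ) := le_max_left _ _
    nlinarith
  · have : ((r + (hi - lo) - h : ℕ) : ℝ) ≤ max ((h - r : ℕ) : ℝ) ((r + (hi - lo) - h : ℕ) : ℝ) :=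
      le_max_right _ _
    nlinarith

theorem leaf_sound (A C h PX PY N x0 x1 y0 y1 c0 c1 s0 s1 i k : ℕ) (hA : 0 < A) (hC : 0 < C)
    (hkN : k < N) (hPX : ctr PX k ≤ A) (hPY : ctr PY k ≤ C)
    (hok : leafOk A C h PX PY x0 x1 y0 y1 c0 c1 s0 s1 i k = true)
    (x y c s : ℝ) (hx0 : (x0 : ℝ) ≤ x) (hx1 : x ≤ x1) (hy0 : (y0 : ℝ) ≤ y) (hy1 : y ≤ y1)
    (hc0 : (c0 : ℝ) ≤ c) (hc1 : c ≤ c1) (hs0 : (s0 : ℝ) ≤ s) (hs1 : s ≤ s1) :
    Red A C h PX PY N (x + i * c) (y + i * s) := by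
  have hi0 : (0 : ℝ) ≤ i := Nat.cast_nonneg i
  have e1 : ((x0 + i * c0 : ℕ) : ℝ) ≤ x + i * c := by
    push_cast; nlinarith
  have e2 : x + i * c ≤ ((x1 + i * c1 : ℕ) : ℝ) := by
    push_cast; nlinarith
  have e3 : ((y0 + i * s0 : ℕ) : ℝ) ≤ y + i * s := by
    push_cast; nlinarith
  have e4 : y + i * s ≤ ((y1 + i * s1 : ℕ) : ℝ) := by
    push_cast; nlinarith
  have l1 : x0 + i * c0 ≤ x1 + i * c1 := by exact_mod_cast e1.trans e2
  have l2 : y0 + i * s0 ≤ y1 + i * s1 := by exact_mod_cast e3.trans e4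
  obtain ⟨m, hm⟩ := dev_spec A h (ctr PX k) (x0 + i * c0) (x1 + i * c1) hA hPX l1 _ e1 e2
  obtain ⟨n, hn⟩ := dev_spec C h (ctr PY k) (y0 + i * s0) (y1 + i * s1) hC hPY l2 _ e3 e4
  refine ⟨k, hkN, m, n, ?_⟩
  have hok' : (dev A h (ctr PX k) (x0 + i * c0) (x1 + i * c1)) * (dev A h (ctr PX k) (x0 + i * c0) (x1 + i * c1))
      + (dev C h (ctr PY k) (y0 + i * s0) (y1 + i * s1)) * (dev C h (ctr PY k) (y0 + i * s0) (y1 + i * s1))
      + 1 ≤ h * h := Nat.le_of_ble_eq_true hok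
  set mx := dev A h (ctr PX k) (x0 + i * c0) (x1 + i * c1)
  set my := dev C h (ctr PY k) (y0 + i * s0) (y1 + i * s1)
  have hokR : (mx : ℝ) * mx + (my : ℝ) * my + 1 ≤ h * h := by exact_mod_cast hok'
  have hmx : (x + i * c - (ctr PX k : ℝ) - m * A) ^ 2 ≤ (mx : ℝ) ^ 2 := by
    rw [← sq_abs]
    exact pow_le_pow_left₀ (abs_nonneg _) hm 2
  have hmy : (y + i * s - (ctr PY k : ℝ) - n * C) ^ 2 ≤ (my : ℝ) ^ 2 := by
    rw [← sq_abs]
    exact pow_le_pow_left₀ (abs_nonneg _) hn 2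
  nlinarith

/-- First coordinate of the direction with parameter `τ / T`. -/
noncomputable def cc (T : ℕ) (τ : ℝ) : ℝ := ((T : ℝ) ^ 2 - τ ^ 2) / ((T : ℝ) ^ 2 + τ ^ 2)
/-- Second coordinate of the direction with parameter `τ / T`. -/
noncomputable def ss (T : ℕ) (τ : ℝ) : ℝ := (2 * T * τ) / ((T : ℝ) ^ 2 + τ ^ 2)

theorem succ_div_mul (n b : ℕ) (hb : 0 < b) : n ≤ Nat.succ (n / b) * b := by
  have h1 := Nat.div_add_mod n b
  have h2 := Nat.mod_lt n hb
  have h3 : Nat.succ (n / b) * b = b * (n / b) + b := by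
    rw [Nat.succ_mul, Nat.mul_comm]
  omega

theorem cl_le (S T t : ℕ) (hT : 0 < T) (ht : t ≤ T) (τ : ℝ) (h0 : 0 ≤ τ) (h1 : τ ≤ t) :
    (cl S T t : ℝ) ≤ S * cc T τ := by
  have hT' : (0 : ℝ) < T := by exact_mod_cast hT
  have hle : t * t ≤ T * T := Nat.mul_le_mul ht ht
  have e : cl S T t = S * (T * T - t * t) / (T * T + t * t) := rfl
  rw [e]
  have h2 : ((S * (T * T - t * t) / (T * T + t * t) : ℕ) : ℝ) ≤
      ((S * (T * T - t * t) : ℕ) : ℝ) / ((T * T + t * t : ℕ) : ℝ) := Nat.cast_div_le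
  refine h2.trans ?_
  push_cast [Nat.cast_sub hle]
  unfold cc
  have hd1 : (0 : ℝ) < (T : ℝ) * T + t * t := by positivity
  have hd2 : (0 : ℝ) < (T : ℝ) ^ 2 + τ ^ 2 := by positivity
  have hS : (0 : ℝ) ≤ S := Nat.cast_nonneg S
  have ht2 : τ ^ 2 ≤ (t : ℝ) ^ 2 := pow_le_pow_left₀ h0 h1 2
  rw [mul_div_assoc]
  apply mul_le_mul_of_nonneg_left _ hS
  rw [div_le_div_iff₀ hd1 hd2]
  nlinarith [sq_nonneg (T : ℝ)]

theorem le_cl (S T t : ℕ) (hT : 0 < T) (ht : t ≤ T) (τ : ℝ) (h1 : (t : ℝ) ≤ τ) :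
    S * cc T τ ≤ ((Nat.succ (cl S T t) : ℕ) : ℝ) := by
  have hT' : (0 : ℝ) < T := by exact_mod_cast hT
  have hle : t * t ≤ T * T := Nat.mul_le_mul ht ht
  have e : cl S T t = S * (T * T - t * t) / (T * T + t * t) := rfl
  rw [e]
  have hpos : 0 < T * T + t * t := by positivity
  have h2 : ((S * (T * T - t * t) : ℕ) : ℝ) / ((T * T + t * t : ℕ) : ℝ) ≤
      ((Nat.succ (S * (T * T - t * t) / (T * T + t * t)) : ℕ) : ℝ) := by
    rw [div_le_iff₀ (by exact_mod_cast hpos)]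
    have := succ_div_mul (S * (T * T - t * t)) _ hpos
    exact_mod_cast this
  refine le_trans ?_ h2
  push_cast [Nat.cast_sub hle]
  unfold cc
  have ht0 : (0 : ℝ) ≤ t := Nat.cast_nonneg t
  have hd1 : (0 : ℝ) < (T : ℝ) * T + t * t := by positivity
  have hd2 : (0 : ℝ) < (T : ℝ) ^ 2 + τ ^ 2 := by positivity
  have hS : (0 : ℝ) ≤ S := Nat.cast_nonneg S
  have ht2 : (t : ℝ) ^ 2 ≤ τ ^ 2 := pow_le_pow_left₀ ht0 h1 2
  rw [mul_div_assoc]
  apply mul_le_mul_of_nonneg_left _ hS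
  rw [div_le_div_iff₀ hd2 hd1]
  nlinarith [sq_nonneg (T : ℝ)]

theorem sl_le (S T t : ℕ) (hT : 0 < T) (τ : ℝ) (h1 : (t : ℝ) ≤ τ) (h2 : τ ≤ T) :
    (sl S T t : ℝ) ≤ S * ss T τ := by
  have hT' : (0 : ℝ) < T := by exact_mod_cast hT
  have e : sl S T t = S * (2 * (T * t)) / (T * T + t * t) := rfl
  rw [e]
  have h3 : ((S * (2 * (T * t)) / (T * T + t * t) : ℕ) : ℝ) ≤
      ((S * (2 * (T * t)) : ℕ) : ℝ) / ((T * T + t * t : ℕ) : ℝ) := Nat.cast_div_le
  refine h3.trans ?_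
  push_cast
  unfold ss
  have ht0 : (0 : ℝ) ≤ t := Nat.cast_nonneg t
  have hd1 : (0 : ℝ) < (T : ℝ) * T + t * t := by positivity
  have hd2 : (0 : ℝ) < (T : ℝ) ^ 2 + τ ^ 2 := by positivity
  have hS : (0 : ℝ) ≤ S := Nat.cast_nonneg S
  rw [mul_div_assoc (S : ℝ)]
  apply mul_le_mul_of_nonneg_left _ hS
  rw [div_le_div_iff₀ hd1 hd2]
  have hkey : (0 : ℝ) ≤ (τ - t) * (T * T - t * τ) := by
    apply mul_nonneg (by linarith)
    have : (t : ℝ) * τ ≤ T * T := mul_le_mul (h1.trans h2) h2 (ht0.trans h1) hT'.le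
    linarith
  have := mul_nonneg hT'.le hkey
  nlinarith [this]

theorem le_sl (S T t : ℕ) (hT : 0 < T) (ht : t ≤ T) (τ : ℝ) (h0 : 0 ≤ τ) (h1 : τ ≤ t) :
    S * ss T τ ≤ ((Nat.succ (sl S T t) : ℕ) : ℝ) := by
  have hT' : (0 : ℝ) < T := by exact_mod_cast hT
  have htT : (t : ℝ) ≤ T := by exact_mod_cast ht
  have e : sl S T t = S * (2 * (T * t)) / (T * T + t * t) := rfl
  rw [e]
  have hpos : 0 < T * T + t * t := by positivity
  have h2 : ((S * (2 * (T * t)) : ℕ) : ℝ) / ((T * T + t * t : ℕ) : ℝ) ≤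
      ((Nat.succ (S * (2 * (T * t)) / (T * T + t * t)) : ℕ) : ℝ) := by
    rw [div_le_iff₀ (by exact_mod_cast hpos)]
    have := succ_div_mul (S * (2 * (T * t))) _ hpos
    exact_mod_cast this
  refine le_trans ?_ h2
  push_cast
  unfold ss
  have ht0 : (0 : ℝ) ≤ t := Nat.cast_nonneg t
  have hd1 : (0 : ℝ) < (T : ℝ) * T + t * t := by positivity
  have hd2 : (0 : ℝ) < (T : ℝ) ^ 2 + τ ^ 2 := by positivity
  have hS : (0 : ℝ) ≤ S := Nat.cast_nonneg S
  rw [mul_div_assoc (S : ℝ)]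
  apply mul_le_mul_of_nonneg_left _ hS
  rw [div_le_div_iff₀ hd2 hd1]
  have hkey : (0 : ℝ) ≤ (t - τ) * (T * T - t * τ) := by
    apply mul_nonneg (by linarith)
    have : (t : ℝ) * τ ≤ T * T := mul_le_mul htT (h1.trans htT) h0 hT'.le
    linarith
  have := mul_nonneg hT'.le hkey
  nlinarith [this]

end Pool.Agent.H704.UD
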