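import Pool.Agent.H704.UD.Sound

namespace Pool.Agent.H704.UD

open scoped EuclideanGeometry

theorem Cov.glue {S T A C h PX PY N K x0 x1 y0 y1 t0 t1 t2 : ℕ}
    (h1 : Cov S T A C h PX PY N K x0 x1 y0 y1 t0 t1)
    (h2 : Cov S T A C h PX PY N K x0 x1 y0 y1 t1 t2) :
    Cov S T A C h PX PY N K x0 x1 y0 y1 t0 t2 := by
  intro x y τ hx0 hx1 hy0 hy1 ht0 ht2
  rcases le_total τ (t1 : ℝ) with h | h
  · exact h1 x y τ hx0 hx1 hy0 hy1 ht0 h
  · exact h2 x y τ hx0 hx1 hy0 hy1 h ht2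

theorem chunk (S T A C h PX PY N K : ℕ) (hA : 0 < A) (hC : 0 < C) (hT : 0 < T) (hN : 0 < N)
    (hPX : ∀ k < N, ctr PX k ≤ A) (hPY : ∀ k < N, ctr PY k ≤ C) (f t0 t1 z : ℕ)
    (htt : t0 ≤ t1) (htT : t1 ≤ T)
    (hz : Nat.beq (go S T A C h PX PY N (K * N) f 0 A 0 C t0 t1 (cl S T t1)
      (Nat.succ (cl S T t0)) (sl S T t0) (Nat.succ (sl S T t1)) z) 1 = true) :
    Cov S T A C h PX PY N K 0 A 0 C t0 t1 := by
  have hz' := Nat.eq_of_beq_eq_true hz
  have htt' : (t0 : ℝ) ≤ t1 := by exact_mod_cast htt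
  have htT' : (t1 : ℝ) ≤ T := by exact_mod_cast htT
  refine go_sound S T A C h PX PY N K hA hC hT hN hPX hPY f _ _ _ _ _ _ _ _ _ _ z
    (by rw [hz']; decide) htt htT ?_
  intro τ h0 h1
  have hτ0 : (0 : ℝ) ≤ τ := (Nat.cast_nonneg t0).trans h0
  exact ⟨cl_le S T _ hT htT τ hτ0 h1, le_cl S T _ hT (htt.trans htT) τ h0,
    sl_le S T _ hT τ h0 (h1.trans htT'), le_sl S T _ hT htT τ hτ0 h1⟩

theorem red_shift {A C h PX PY N : ℕ} {x y : ℝ} (m n : ℤ)
    (H : Red A C h PX PY N (x - m * A) (y - n * C)) : Red A C h PX PY N x y := by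
  obtain ⟨k, hk, a, b, hab⟩ := H
  refine ⟨k, hk, a + m, b + n, ?_⟩
  push_cast
  have e : (x - (ctr PX k : ℝ) - (a + m) * A) ^ 2 + (y - (ctr PY k : ℝ) - (b + n) * C) ^ 2 =
      (x - m * A - (ctr PX k : ℝ) - a * A) ^ 2 + (y - n * C - (ctr PY k : ℝ) - b * C) ^ 2 := by
    ring
  rw [e]
  exact hab

theorem exists_shift (A : ℕ) (hA : 0 < A) (x : ℝ) :
    ∃ m : ℤ, 0 ≤ x - m * A ∧ x - m * A ≤ A := by
  have hA' : (0 : ℝ) < A := by exact_mod_cast hA
  refine ⟨⌊x / A⌋, ?_, ?_⟩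
  · have := Int.floor_le (x / A)
    rw [le_div_iff₀ hA'] at this
    linarith
  · have := (Int.lt_floor_add_one (x / A)).le
    rw [div_le_iff₀ hA'] at this
    linarith

/-- Directions in the first quadrant. -/
theorem quad {S T A C h PX PY N K : ℕ} (hA : 0 < A) (hC : 0 < C) (hT : 0 < T)
    (hcov : Cov S T A C h PX PY N K 0 A 0 C 0 T) (x y u v : ℝ) (hu : 0 ≤ u) (hv : 0 ≤ v)
    (huv : u ^ 2 + v ^ 2 = 1) :
    ∃ i : ℕ, i < K ∧ Red A C h PX PY N (x + i * (S * u)) (y + i * (S * v)) := by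
  have hT' : (0 : ℝ) < T := by exact_mod_cast hT
  obtain ⟨m, hm0, hm1⟩ := exists_shift A hA x
  obtain ⟨n, hn0, hn1⟩ := exists_shift C hC y
  have hu1 : 0 < 1 + u := by linarith
  have hvle : v ≤ 1 + u := by nlinarith
  have hτ0 : 0 ≤ T * (v / (1 + u)) := by positivity
  have hτ1 : T * (v / (1 + u)) ≤ T := by
    have : v / (1 + u) ≤ 1 := by rw [div_le_one hu1]; exact hvle
    nlinarith
  have hc : cc T (T * (v / (1 + u))) = u := by
    unfold cc
    have hd : (0 : ℝ) < (T : ℝ) ^ 2 + (T * (v / (1 + u))) ^ 2 := by positivity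
    rw [div_eq_iff hd.ne']
    field_simp
    nlinarith
  have hs : ss T (T * (v / (1 + u))) = v := by
    unfold ss
    have hd : (0 : ℝ) < (T : ℝ) ^ 2 + (T * (v / (1 + u))) ^ 2 := by positivity
    rw [div_eq_iff hd.ne']
    field_simp
    nlinarith
  obtain ⟨i, hi, hred⟩ := hcov (x - m * A) (y - n * C) (T * (v / (1 + u)))
    (by simpa using hm0) hm1 (by simpa using hn0) hn1 (by simpa using hτ0) hτ1
  rw [hc, hs] at hred
  refine ⟨i, hi, red_shift m n ?_⟩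
  have e1 : x + i * (S * u) - m * A = x - m * A + i * (S * u) := by ring
  have e2 : y + i * (S * v) - n * C = y - n * C + i * (S * v) := by ring
  rw [e1, e2]
  exact hred

theorem red_mirror {A C h PX PX' PY N : ℕ} (hmir : ∀ k < N, ctr PX' k + ctr PX k = A) {x y : ℝ}
    (H : Red A C h PX' PY N (-x) y) : Red A C h PX PY N x y := by
  obtain ⟨k, hk, a, b, hab⟩ := H
  refine ⟨k, hk, -(a + 1), b, ?_⟩
  have hk' : (ctr PX' k : ℝ) + ctr PX k = A := by exact_mod_cast hmir k hk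
  have hk'' : (ctr PX' k : ℝ) = A - ctr PX k := by linarith
  rw [hk''] at hab
  push_cast
  have e : (x - (ctr PX k : ℝ) - (-(a + 1)) * A) ^ 2 + (y - (ctr PY k : ℝ) - b * C) ^ 2 =
      (-x - (A - (ctr PX k : ℝ)) - a * A) ^ 2 + (y - (ctr PY k : ℝ) - b * C) ^ 2 := by
    ring
  rw [e]
  exact hab

/-- Directions in the upper half plane. -/
theorem upper {S T A C h PX PX' PY N K : ℕ} (hA : 0 < A) (hC : 0 < C) (hT : 0 < T)
    (hmir : ∀ k < N, ctr PX' k + ctr PX k = A)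
    (hcov : Cov S T A C h PX PY N K 0 A 0 C 0 T) (hcov' : Cov S T A C h PX' PY N K 0 A 0 C 0 T)
    (x y u v : ℝ) (hv : 0 ≤ v) (huv : u ^ 2 + v ^ 2 = 1) :
    ∃ i : ℕ, i < K ∧ Red A C h PX PY N (x + i * (S * u)) (y + i * (S * v)) := by
  rcases le_total 0 u with hu | hu
  · exact quad hA hC hT hcov x y u v hu hv huv
  · obtain ⟨i, hi, hred⟩ := quad hA hC hT hcov' (-x) y (-u) v (by linarith) hv (by nlinarith)
    refine ⟨i, hi, red_mirror hmir ?_⟩
    have e1 : -(x + i * (S * u)) = -x + i * (S * -u) := by ring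
    rw [e1]
    exact hred

/-- All directions. -/
theorem alldir {S T A C h PX PX' PY N K : ℕ} (hA : 0 < A) (hC : 0 < C) (hT : 0 < T)
    (hmir : ∀ k < N, ctr PX' k + ctr PX k = A)
    (hcov : Cov S T A C h PX PY N K 0 A 0 C 0 T) (hcov' : Cov S T A C h PX' PY N K 0 A 0 C 0 T)
    (x y u v : ℝ) (huv : u ^ 2 + v ^ 2 = 1) :
    ∃ i : ℕ, i < K ∧ Red A C h PX PY N (x + i * (S * u)) (y + i * (S * v)) := by
  rcases le_total 0 v with hv | hv
  · exact upper hA hC hT hmir hcov hcov' x y u v hv huv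
  · obtain ⟨i, hi, hred⟩ := upper hA hC hT hmir hcov hcov' (x + ((K : ℝ) - 1) * (S * u))
      (y + ((K : ℝ) - 1) * (S * v)) (-u) (-v) (by linarith) (by nlinarith)
    refine ⟨K - 1 - i, by omega, ?_⟩
    have hcast : ((K - 1 - i : ℕ) : ℝ) = (K : ℝ) - 1 - i := by
      have : K - 1 - i + (1 + i) = K := by omega
      have h2 := congrArg (fun n : ℕ => (n : ℝ)) this
      push_cast at h2
      linarith
    rw [hcast]
    have e1 : x + ((K : ℝ) - 1 - i) * (S * u) = x + ((K : ℝ) - 1) * (S * u) + i * (S * -u) := by ring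
    have e2 : y + ((K : ℝ) - 1 - i) * (S * v) = y + ((K : ℝ) - 1) * (S * v) + i * (S * -v) := by ring
    rw [e1, e2]
    exact hred

/-- Separation of the centres. -/
def SepC (A C h PX PY N : ℕ) : Prop :=
  ∀ k : ℕ, k < N → ∀ l : ℕ, l < N → ∀ m : ℕ, m < 3 → ∀ n : ℕ, n < 3 → (k = l ∧ m = 1 ∧ n = 1) ∨
    16 * (h : ℤ) ^ 2 ≤ ((ctr PX k : ℤ) - ctr PX l + ((m : ℤ) - 1) * A) ^ 2
      + ((ctr PY k : ℤ) - ctr PY l + ((n : ℤ) - 1) * C) ^ 2

/-- Boolean form of `SepC`. -/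
def sepB (A C h PX PY N : ℕ) : Bool :=
  (List.range N).all fun k => (List.range N).all fun l => (List.range 3).all fun m =>
    (List.range 3).all fun n => (Nat.beq k l && Nat.beq m 1 && Nat.beq n 1) ||
      decide (16 * (h : ℤ) ^ 2 ≤ ((ctr PX k : ℤ) - ctr PX l + ((m : ℤ) - 1) * A) ^ 2
      + ((ctr PY k : ℤ) - ctr PY l + ((n : ℤ) - 1) * C) ^ 2)

theorem sepC_of {A C h PX PY N : ℕ} (H : sepB A C h PX PY N = true) : SepC A C h PX PY N := by
  intro k hk l hl m hm n hn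
  have h1 := List.all_eq_true.mp H k (List.mem_range.mpr hk)
  have h2 := List.all_eq_true.mp h1 l (List.mem_range.mpr hl)
  have h3 := List.all_eq_true.mp h2 m (List.mem_range.mpr hm)
  have h4 := List.all_eq_true.mp h3 n (List.mem_range.mpr hn)
  rcases (Bool.or_eq_true _ _).mp h4 with h5 | h5
  · left
    have h6 := (Bool.and_eq_true _ _).mp h5
    have h7 := (Bool.and_eq_true _ _).mp h6.1
    exact ⟨Nat.eq_of_beq_eq_true h7.1, Nat.eq_of_beq_eq_true h7.2, Nat.eq_of_beq_eq_true h6.2⟩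
  · right
    exact of_decide_eq_true h5

theorem far_of {A h p q : ℕ} (hA : 4 * h ≤ A) (hp : p ≤ A) (hq : q ≤ A) {m : ℤ}
    (hm : m ≤ -2 ∨ 2 ≤ m) : 16 * (h : ℤ) ^ 2 ≤ ((p : ℤ) - q + m * A) ^ 2 := by
  have hA' : 4 * (h : ℤ) ≤ A := by exact_mod_cast hA
  have hp' : (p : ℤ) ≤ A := by exact_mod_cast hp
  have hq' : (q : ℤ) ≤ A := by exact_mod_cast hq
  have hp0 : (0 : ℤ) ≤ p := Int.natCast_nonneg p
  have hq0 : (0 : ℤ) ≤ q := Int.natCast_nonneg q
  have hh0 : (0 : ℤ) ≤ h := Int.natCast_nonneg h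
  have hA0 : (0 : ℤ) ≤ A := Int.natCast_nonneg A
  rcases hm with hm | hm
  · have h1 : (p : ℤ) - q + m * A ≤ -(4 * h) := by nlinarith
    nlinarith
  · have h1 : 4 * (h : ℤ) ≤ (p : ℤ) - q + m * A := by nlinarith
    nlinarith

theorem sep_all {A C h PX PY N : ℕ} (hPX : ∀ k < N, ctr PX k ≤ A) (hPY : ∀ k < N, ctr PY k ≤ C)
    (hA : 4 * h ≤ A) (hC : 4 * h ≤ C) (hsep : SepC A C h PX PY N) (k l : ℕ) (hk : k < N)
    (hl : l < N) (m n : ℤ) : (k = l ∧ m = 0 ∧ n = 0) ∨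
    16 * (h : ℤ) ^ 2 ≤ ((ctr PX k : ℤ) - ctr PX l + m * A) ^ 2
      + ((ctr PY k : ℤ) - ctr PY l + n * C) ^ 2 := by
  by_cases hm : m ≤ -2 ∨ 2 ≤ m
  · right
    have := far_of hA (hPX k hk) (hPX l hl) hm
    have h2 := sq_nonneg ((ctr PY k : ℤ) - ctr PY l + n * C)
    linarith
  by_cases hn : n ≤ -2 ∨ 2 ≤ n
  · right
    have := far_of hC (hPY k hk) (hPY l hl) hn
    have h2 := sq_nonneg ((ctr PX k : ℤ) - ctr PX l + m * A)
    linarith
  push Not at hm hn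
  obtain ⟨m', hm'⟩ : ∃ m' : ℕ, (m' : ℤ) = m + 1 := ⟨(m + 1).toNat, by omega⟩
  obtain ⟨n', hn'⟩ : ∃ n' : ℕ, (n' : ℤ) = n + 1 := ⟨(n + 1).toNat, by omega⟩
  have hm3 : m' < 3 := by omega
  have hn3 : n' < 3 := by omega
  have em : (m' : ℤ) - 1 = m := by omega
  have en : (n' : ℤ) - 1 = n := by omega
  rcases hsep k hk l hl m' hm3 n' hn3 with ⟨h1, h2, h3⟩ | h4
  · left
    refine ⟨h1, by omega, by omega⟩
  · right
    rw [em, en] at h4
    exact h4

/-- Two points of the red set are not at distance `2 h`. -/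
theorem red_dist {A C h PX PY N : ℕ} (hh : 0 < h) (hPX : ∀ k < N, ctr PX k ≤ A)
    (hPY : ∀ k < N, ctr PY k ≤ C)
    (hA : 4 * h ≤ A) (hC : 4 * h ≤ C) (hsep : SepC A C h PX PY N) {x y x' y' : ℝ}
    (H : Red A C h PX PY N x y) (H' : Red A C h PX PY N x' y') :
    (x - x') ^ 2 + (y - y') ^ 2 ≠ (2 * (h : ℝ)) ^ 2 := by
  intro heq
  obtain ⟨k, hk, m, n, e1⟩ := H
  obtain ⟨l, hl, m', n', e2⟩ := H'
  have hh' : (0 : ℝ) < h := by exact_mod_cast hh
  -- vectors in the complex plane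
  set a : ℂ := ⟨x - ctr PX k - m * A, y - ctr PY k - n * C⟩ with ha
  set b : ℂ := ⟨x' - ctr PX l - m' * A, y' - ctr PY l - n' * C⟩ with hb
  set d : ℂ := ⟨x - x', y - y'⟩ with hd
  have hna : ‖a‖ < h := by
    have : ‖a‖ ^ 2 < (h : ℝ) ^ 2 := by
      rw [Complex.sq_norm, Complex.normSq_apply]
      simp only [ha]
      nlinarith [e1]
    exact lt_of_pow_lt_pow_left₀ 2 hh'.le this
  have hnb : ‖b‖ < h := by
    have : ‖b‖ ^ 2 < (h : ℝ) ^ 2 := by
      rw [Complex.sq_norm, Complex.normSq_apply]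
      simp only [hb]
      nlinarith [e2]
    exact lt_of_pow_lt_pow_left₀ 2 hh'.le this
  have hnd : ‖d‖ = 2 * h := by
    have : ‖d‖ ^ 2 = (2 * (h : ℝ)) ^ 2 := by
      rw [Complex.sq_norm, Complex.normSq_apply]
      simp only [hd]
      nlinarith [heq]
    exact (sq_eq_sq₀ (norm_nonneg _) (by positivity)).mp this
  rcases sep_all hPX hPY hA hC hsep k l hk hl (m - m') (n - n') with ⟨h1, h2, h3⟩ | h4
  · have hm : m = m' := by omega
    have hn : n = n' := by omega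
    subst hm hn h1
    have hdab : d = a - b := by
      apply Complex.ext
      · simp [ha, hb, hd]
      · simp [ha, hb, hd]
    have : ‖d‖ ≤ ‖a‖ + ‖b‖ := by rw [hdab]; exact norm_sub_le a b
    linarith
  · set e : ℂ := ⟨(ctr PX k : ℝ) - ctr PX l + (m - m') * A, (ctr PY k : ℝ) - ctr PY l + (n - n') * C⟩
      with he
    have hne : 4 * (h : ℝ) ≤ ‖e‖ := by
      have h5 : 16 * (h : ℝ) ^ 2 ≤ ((ctr PX k : ℝ) - ctr PX l + (m - m') * A) ^ 2
      + ((ctr PY k : ℝ) - ctr PY l + (n - n') * C) ^ 2 := by exact_mod_cast h4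
      have : (4 * (h : ℝ)) ^ 2 ≤ ‖e‖ ^ 2 := by
        rw [Complex.sq_norm, Complex.normSq_apply]
        simp only [he]
        nlinarith [h5]
      exact le_of_sq_le_sq this (norm_nonneg _)
    have heab : e = d - a + b := by
      apply Complex.ext
      · simp [ha, hb, hd, he]
        ring
      · simp [ha, hb, hd, he]
        ring
    have h6 : ‖e‖ ≤ ‖d‖ + ‖a‖ + ‖b‖ := by
      rw [heab]
      exact (norm_add_le _ _).trans (by gcongr; exact norm_sub_le d a)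
    linarith

/-- The final geometric statement. -/
theorem geom {S T A C h PX PX' PY N K : ℕ} (hS : S = 2 * h) (hh : 0 < h) (hT : 0 < T)
    (hPX : ∀ k < N, ctr PX k ≤ A) (hPY : ∀ k < N, ctr PY k ≤ C)
    (hA : 4 * h ≤ A) (hC : 4 * h ≤ C) (hsep : SepC A C h PX PY N)
    (hmir : ∀ k < N, ctr PX' k + ctr PX k = A)
    (hcov : Cov S T A C h PX PY N K 0 A 0 C 0 T) (hcov' : Cov S T A C h PX' PY N K 0 A 0 C 0 T) :
    ∃ B : Set (EuclideanSpace ℝ (Fin 2)),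
      (∀ x ∉ B, ∀ y ∉ B, dist x y ≠ 1) ∧
      ∀ x v : EuclideanSpace ℝ (Fin 2), ‖v‖ = 1 → ¬ ∀ i : ℕ, i < K → x + (i : ℝ) • v ∈ B := by
  have hh' : (0 : ℝ) < h := by exact_mod_cast hh
  have hS' : (S : ℝ) = 2 * h := by exact_mod_cast hS
  refine ⟨{p | ¬ Red A C h PX PY N (S * p 0) (S * p 1)}, ?_, ?_⟩
  · intro x hx y hy hxy
    simp only [Set.mem_ofPred_eq, not_not] at hx hy
    have h1 := red_dist hh hPX hPY hA hC hsep hx hy
    apply h1
    rw [EuclideanSpace.dist_eq] at hxy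
    rw [Real.sqrt_eq_one] at hxy
    simp only [Fin.sum_univ_two, Real.dist_eq, sq_abs] at hxy
    rw [hS']
    have e : (2 * (h : ℝ) * x 0 - 2 * h * y 0) ^ 2 + (2 * (h : ℝ) * x 1 - 2 * h * y 1) ^ 2 =
      (2 * (h : ℝ)) ^ 2 * ((x 0 - y 0) ^ 2 + (x 1 - y 1) ^ 2) := by ring
    rw [e, hxy, mul_one]
  · intro x v hv hall
    have huv : (v 0) ^ 2 + (v 1) ^ 2 = 1 := by
      rw [EuclideanSpace.norm_eq] at hv
      rw [Real.sqrt_eq_one] at hv
      simpa [Fin.sum_univ_two, sq_abs] using hv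
    obtain ⟨i, hi, hred⟩ := alldir (by omega) (by omega) hT hmir hcov hcov' (S * x 0) (S * x 1)
      (v 0) (v 1) huv
    apply hall i hi
    have e1 : (S : ℝ) * (x + (i : ℝ) • v) 0 = S * x 0 + i * (S * v 0) := by
      simp
      ring
    have e2 : (S : ℝ) * (x + (i : ℝ) • v) 1 = S * x 1 + i * (S * v 1) := by
      simp
      ring
    rw [e1, e2]
    exact hred

end Pool.Agent.H704.UD
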