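import Pool.Agent.H704.UD.Check

namespace Pool.Agent.H704.UD

theorem go_zero (S T A C h PX PY N KN x0 x1 y0 y1 t0 t1 c0 c1 s0 s1 z : ℕ) :
    go S T A C h PX PY N KN 0 x0 x1 y0 y1 t0 t1 c0 c1 s0 s1 z = 0 := rfl

theorem go_succ (S T A C h PX PY N KN f x0 x1 y0 y1 t0 t1 c0 c1 s0 s1 z : ℕ) :
    go S T A C h PX PY N KN (f + 1) x0 x1 y0 y1 t0 t1 c0 c1 s0 s1 z =
      cond (Nat.ble (Nat.succ (Nat.mod z 2048)) KN)
          (cond (leafOk A C h PX PY x0 x1 y0 y1 c0 c1 s0 s1 (Nat.div (Nat.mod z 2048) N)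
            (Nat.mod (Nat.mod z 2048) N)) (Nat.div z 2048) 0)
          (cond (Nat.beq (Nat.mod z 2048) KN)
            (cond (Nat.beq (go S T A C h PX PY N KN f x0 (half x0 x1) y0 y1 t0 t1 c0 c1 s0 s1
                (Nat.div z 2048)) 0) 0
              (go S T A C h PX PY N KN f (half x0 x1) x1 y0 y1 t0 t1 c0 c1 s0 s1
                (go S T A C h PX PY N KN f x0 (half x0 x1) y0 y1 t0 t1 c0 c1 s0 s1
                (Nat.div z 2048))))
            (cond (Nat.beq (Nat.mod z 2048) (Nat.succ KN))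
              (cond (Nat.beq (go S T A C h PX PY N KN f x0 x1 y0 (half y0 y1) t0 t1 c0 c1 s0 s1
                (Nat.div z 2048)) 0) 0
                (go S T A C h PX PY N KN f x0 x1 (half y0 y1) y1 t0 t1 c0 c1 s0 s1
                  (go S T A C h PX PY N KN f x0 x1 y0 (half y0 y1) t0 t1 c0 c1 s0 s1
                (Nat.div z 2048))))
              (cond (Nat.beq (go S T A C h PX PY N KN f x0 x1 y0 y1 t0 (half t0 t1)
                  (cl S T (half t0 t1)) c1 s0 (Nat.succ (sl S T (half t0 t1))) (Nat.div z 2048)) 0) 0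
                (go S T A C h PX PY N KN f x0 x1 y0 y1 (half t0 t1) t1 c0
                    (Nat.succ (cl S T (half t0 t1))) (sl S T (half t0 t1)) s1
                    (go S T A C h PX PY N KN f x0 x1 y0 y1 t0 (half t0 t1)
                  (cl S T (half t0 t1)) c1 s0 (Nat.succ (sl S T (half t0 t1)))
                    (Nat.div z 2048)))))) := rfl

/-- Every progression starting in the box, with direction parameter in `[t0, t1]`, is met. -/
def Cov (S T A C h PX PY N K x0 x1 y0 y1 t0 t1 : ℕ) : Prop :=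
  ∀ x y τ : ℝ, (x0 : ℝ) ≤ x → x ≤ x1 → (y0 : ℝ) ≤ y → y ≤ y1 → (t0 : ℝ) ≤ τ → τ ≤ t1 →
    ∃ i : ℕ, i < K ∧ Red A C h PX PY N (x + i * (S * cc T τ)) (y + i * (S * ss T τ))

theorem go_sound (S T A C h PX PY N K : ℕ) (hA : 0 < A) (hC : 0 < C) (hT : 0 < T) (hN : 0 < N)
    (hPX : ∀ k < N, ctr PX k ≤ A) (hPY : ∀ k < N, ctr PY k ≤ C) (f : ℕ) :
    ∀ x0 x1 y0 y1 t0 t1 c0 c1 s0 s1 z : ℕ,
      go S T A C h PX PY N (K * N) f x0 x1 y0 y1 t0 t1 c0 c1 s0 s1 z ≠ 0 → t0 ≤ t1 → t1 ≤ T →
      (∀ τ : ℝ, (t0 : ℝ) ≤ τ → τ ≤ t1 → (c0 : ℝ) ≤ S * cc T τ ∧ S * cc T τ ≤ c1 ∧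
        (s0 : ℝ) ≤ S * ss T τ ∧ S * ss T τ ≤ s1) →
      Cov S T A C h PX PY N K x0 x1 y0 y1 t0 t1 := by
  induction f with
  | zero => intro x0 x1 y0 y1 t0 t1 c0 c1 s0 s1 z hz; exact absurd (go_zero ..) hz
  | succ f ih =>
    intro x0 x1 y0 y1 t0 t1 c0 c1 s0 s1 z hz htt htT hb x y τ hx0 hx1 hy0 hy1 ht0 ht1
    rw [go_succ] at hz
    rcases h1 : Nat.ble (Nat.succ (Nat.mod z 2048)) (K * N) with _ | _
    · rw [h1, cond_false] at hz
      rcases h2 : Nat.beq (Nat.mod z 2048) (K * N) with _ | _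
      · rw [h2, cond_false] at hz
        rcases h3 : Nat.beq (Nat.mod z 2048) (Nat.succ (K * N)) with _ | _
        · rw [h3, cond_false] at hz
          generalize hr : go S T A C h PX PY N (K * N) f x0 x1 y0 y1 t0 (half t0 t1)
                  (cl S T (half t0 t1)) c1 s0 (Nat.succ (sl S T (half t0 t1)))
                    (Nat.div z 2048) = r at hz
          rcases h4 : Nat.beq r 0 with _ | _
          · rw [h4, cond_false] at hz
            have hr0 : r ≠ 0 := fun h => by rw [h] at h4; exact absurd h4 (by decide)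
            rw [← hr] at hr0
            have hm0 : t0 ≤ half t0 t1 := by
              show t0 ≤ (t0 + t1) / 2
              omega
            have hm1 : half t0 t1 ≤ t1 := by
              show (t0 + t1) / 2 ≤ t1
              omega
            have hm0' : (t0 : ℝ) ≤ (half t0 t1 : ℝ) := by exact_mod_cast hm0
            have hm1' : (half t0 t1 : ℝ) ≤ (t1 : ℝ) := by exact_mod_cast hm1
            have htT' : (t1 : ℝ) ≤ T := by exact_mod_cast htT
            have ht00 : (0 : ℝ) ≤ t0 := Nat.cast_nonneg _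
            rcases le_total τ (half t0 t1 : ℝ) with hle | hle
            · refine ih x0 x1 y0 y1 t0 (half t0 t1) _ c1 s0 _ _ hr0 hm0 (hm1.trans htT) ?_ x y τ
                hx0 hx1 hy0 hy1 ht0 hle
              intro σ hσ0 hσ1
              obtain ⟨_, b2, b3, _⟩ := hb σ hσ0 (hσ1.trans hm1')
              exact ⟨cl_le S T _ hT (hm1.trans htT) σ (ht00.trans hσ0) hσ1, b2, b3,
                le_sl S T _ hT (hm1.trans htT) σ (ht00.trans hσ0) hσ1⟩
            · refine ih x0 x1 y0 y1 (half t0 t1) t1 c0 _ _ s1 _ hz hm1 htT ?_ x y τ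
                hx0 hx1 hy0 hy1 hle ht1
              intro σ hσ0 hσ1
              obtain ⟨b1, _, _, b4⟩ := hb σ (hm0'.trans hσ0) hσ1
              exact ⟨b1, le_cl S T _ hT (hm1.trans htT) σ hσ0,
                sl_le S T _ hT σ hσ0 (hσ1.trans htT'), b4⟩
          · rw [h4, cond_true] at hz
            exact absurd rfl hz
        · rw [h3, cond_true] at hz
          generalize hr : go S T A C h PX PY N (K * N) f x0 x1 y0 (half y0 y1) t0 t1 c0 c1 s0 s1
                (Nat.div z 2048) = r at hz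
          rcases h4 : Nat.beq r 0 with _ | _
          · rw [h4, cond_false] at hz
            have hr0 : r ≠ 0 := fun h => by rw [h] at h4; exact absurd h4 (by decide)
            rw [← hr] at hr0
            rcases le_total y (half y0 y1 : ℝ) with hle | hle
            · exact ih _ _ _ _ _ _ _ _ _ _ _ hr0 htt htT hb x y τ hx0 hx1 hy0 hle ht0 ht1
            · exact ih _ _ _ _ _ _ _ _ _ _ _ hz htt htT hb x y τ hx0 hx1 hle hy1 ht0 ht1
          · rw [h4, cond_true] at hz
            exact absurd rfl hz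
      · rw [h2, cond_true] at hz
        generalize hr : go S T A C h PX PY N (K * N) f x0 (half x0 x1) y0 y1 t0 t1 c0 c1 s0 s1
                (Nat.div z 2048) = r at hz
        rcases h4 : Nat.beq r 0 with _ | _
        · rw [h4, cond_false] at hz
          have hr0 : r ≠ 0 := fun h => by rw [h] at h4; exact absurd h4 (by decide)
          rw [← hr] at hr0
          rcases le_total x (half x0 x1 : ℝ) with hle | hle
          · exact ih _ _ _ _ _ _ _ _ _ _ _ hr0 htt htT hb x y τ hx0 hle hy0 hy1 ht0 ht1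
          · exact ih _ _ _ _ _ _ _ _ _ _ _ hz htt htT hb x y τ hle hx1 hy0 hy1 ht0 ht1
        · rw [h4, cond_true] at hz
          exact absurd rfl hz
    · rw [h1, cond_true] at hz
      have hd : Nat.mod z 2048 < K * N := Nat.le_of_ble_eq_true h1
      rcases h2 : leafOk A C h PX PY x0 x1 y0 y1 c0 c1 s0 s1 (Nat.div (Nat.mod z 2048) N)
            (Nat.mod (Nat.mod z 2048) N) with _ | _
      · rw [h2, cond_false] at hz
        exact absurd rfl hz
      · have hk : Nat.mod (Nat.mod z 2048) N < N := Nat.mod_lt _ hN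
        have hi : Nat.div (Nat.mod z 2048) N < K := by
          rw [Nat.mul_comm] at hd
          exact Nat.div_lt_of_lt_mul hd
        obtain ⟨b1, b2, b3, b4⟩ := hb τ ht0 ht1
        exact ⟨_, hi, leaf_sound A C h PX PY N x0 x1 y0 y1 c0 c1 s0 s1 _ _ hA hC hk
          (hPX _ hk) (hPY _ hk) h2 x y _ _ hx0 hx1 hy0 hy1 b1 b2 b3 b4⟩

end Pool.Agent.H704.UD
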